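import Mathlib

set_option autoImplicit false

namespace Pool.Agent.Results.MP_54ed65_an.NonnegRealPart

/-- `p_β(z) = ((1+z)/(1-z))^β`, principal power. -/
noncomputable def p (β : ℝ) (z : ℂ) : ℂ := ((1 + z) / (1 - z)) ^ (β : ℂ)

/-- `P_{α,β}(z) = {α r² + (1-α)(1-r²)} p_β(z) + (1-α)(1-r²) z p_β'(z)`, `r = |z|`. -/
noncomputable def P (α β : ℝ) (z : ℂ) : ℂ :=
  ((α * ‖z‖ ^ 2 + (1 - α) * (1 - ‖z‖ ^ 2) : ℝ) : ℂ) * p β z +
    (((1 - α) * (1 - ‖z‖ ^ 2) : ℝ) : ℂ) * (z * deriv (p β) z)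

lemma cayley_re {z : ℂ} (hz : ‖z‖ < 1) : 0 < ((1 + z) / (1 - z)).re := by
  have h1 : (1 - z) ≠ 0 := by
    intro h
    have : z = 1 := by linear_combination -h
    rw [this] at hz
    simp at hz
  have h2 : 0 < Complex.normSq (1 - z) := Complex.normSq_pos.mpr h1
  rw [Complex.div_re]
  have h3 : z.re * z.re + z.im * z.im < 1 := by
    have := Complex.normSq_eq_norm_sq z
    rw [Complex.normSq_apply] at this
    rw [this]
    nlinarith [norm_nonneg z]
  have e : (1 + z).re * (1 - z).re / Complex.normSq (1 - z) +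
      (1 + z).im * (1 - z).im / Complex.normSq (1 - z) =
      (1 - (z.re * z.re + z.im * z.im)) / Complex.normSq (1 - z) := by
    simp only [Complex.add_re, Complex.sub_re, Complex.add_im, Complex.sub_im, Complex.one_re,
      Complex.one_im]
    ring
  rw [e]
  exact div_pos (by linarith) h2

lemma one_sub_ne {z : ℂ} (hz : ‖z‖ < 1) : 1 - z ≠ 0 := by
  intro h
  have : z = 1 := by linear_combination -h
  rw [this] at hz
  simp at hz

lemma one_add_ne {z : ℂ} (hz : ‖z‖ < 1) : 1 + z ≠ 0 := by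
  intro h
  have : z = -1 := by linear_combination h
  rw [this] at hz
  simp at hz

lemma deriv_p (β : ℝ) {z : ℂ} (hz : ‖z‖ < 1) :
    deriv (p β) z = (2 * β / ((1 + z) * (1 - z))) * p β z := by
  have h1 := one_sub_ne hz
  have h2 := one_add_ne hz
  have hd : HasDerivAt (fun w : ℂ => (1 + w) / (1 - w)) (2 / (1 - z) ^ 2) z := by
    have a : HasDerivAt (fun w : ℂ => 1 + w) 1 z := by
      simpa using (hasDerivAt_id z).const_add 1
    have b : HasDerivAt (fun w : ℂ => 1 - w) (-1) z := by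
      simpa using (hasDerivAt_id z).const_sub 1
    have := a.div b h1
    have e : (2 : ℂ) / (1 - z) ^ 2 = (1 * (1 - z) - (1 + z) * -1) / (1 - z) ^ 2 := by
      congr 1
      ring
    rw [e]
    exact this
  have hs : (1 + z) / (1 - z) ∈ Complex.slitPlane := Or.inl (cayley_re hz)
  have hk := hd.cpow_const (c := (β : ℂ)) hs
  have hW : (1 + z) / (1 - z) ≠ 0 := Complex.slitPlane_ne_zero hs
  have e : deriv (p β) z = (β : ℂ) * ((1 + z) / (1 - z)) ^ ((β : ℂ) - 1) * (2 / (1 - z) ^ 2) :=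
    hk.deriv
  rw [e, Complex.cpow_sub _ _ hW, Complex.cpow_one]
  unfold p
  field_simp

/-- the real inequality behind the theorem -/
lemma core {α β ρ ψ : ℝ} (hα : 0 < α) (hα' : α < 2 / 3) (hβ : 0 < β)
    (hab : 0 ≤ α - 2 * (1 - α) * β) (hρ0 : 0 < ρ) (hψ2 : |ψ| < Real.pi / 2) :
    0 ≤ Real.cos (β * ψ) * (α * (ρ ^ 2 + 1) + (4 - 6 * α) * (ρ * Real.cos ψ) +
        2 * (1 - α) * β * Real.cos ψ ^ 2 * (ρ ^ 2 - 1)) -
      2 * (1 - α) * β * Real.cos ψ * (ρ ^ 2 + 1) * (Real.sin ψ * Real.sin (β * ψ)) := by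
  have hβ1 : β < 1 := by
    by_contra hcon
    push Not at hcon
    nlinarith
  obtain ⟨hψl, hψr⟩ := abs_lt.mp hψ2
  have hcs : Real.sin ψ ^ 2 + Real.cos ψ ^ 2 = 1 := Real.sin_sq_add_cos_sq ψ
  have hc0 : 0 < Real.cos ψ := Real.cos_pos_of_mem_Ioo ⟨by linarith, by linarith⟩
  have hC0 : 0 < Real.cos (β * ψ) := by
    have : |β * ψ| < Real.pi / 2 := by
      rw [abs_mul, abs_of_pos hβ]
      nlinarith [abs_nonneg ψ, Real.pi_pos]
    exact Real.cos_pos_of_mem_Ioo ⟨by linarith [neg_abs_le (β * ψ)], by linarith [le_abs_self (β * ψ)]⟩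
  have hkey : 0 ≤ Real.sin ψ * (Real.sin ψ * Real.cos (β * ψ) - Real.cos ψ * Real.sin (β * ψ)) := by
    have e : Real.sin ψ * Real.cos (β * ψ) - Real.cos ψ * Real.sin (β * ψ) =
        Real.sin ((1 - β) * ψ) := by
      have : (1 - β) * ψ = ψ - β * ψ := by ring
      rw [this, Real.sin_sub]
    rw [e]
    have h1β : 0 < 1 - β := by linarith
    rcases le_total 0 ψ with h | h
    · apply mul_nonneg
      · exact Real.sin_nonneg_of_nonneg_of_le_pi h (by linarith [Real.pi_pos])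
      · exact Real.sin_nonneg_of_nonneg_of_le_pi (by positivity) (by nlinarith [Real.pi_pos])
    · have a1 : Real.sin ψ ≤ 0 := Real.sin_nonpos_of_nonpos_of_neg_pi_le h (by linarith [Real.pi_pos])
      have a2 : Real.sin ((1 - β) * ψ) ≤ 0 :=
        Real.sin_nonpos_of_nonpos_of_neg_pi_le (by nlinarith) (by nlinarith [Real.pi_pos])
      exact mul_nonneg_of_nonpos_of_nonpos a1 a2
  have hsT : 0 ≤ Real.sin ψ * Real.sin (β * ψ) := by
    rcases le_total 0 ψ with h | h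
    · apply mul_nonneg
      · exact Real.sin_nonneg_of_nonneg_of_le_pi h (by linarith [Real.pi_pos])
      · exact Real.sin_nonneg_of_nonneg_of_le_pi (by positivity) (by nlinarith [Real.pi_pos])
    · have a1 : Real.sin ψ ≤ 0 := Real.sin_nonpos_of_nonpos_of_neg_pi_le h (by linarith [Real.pi_pos])
      have a2 : Real.sin (β * ψ) ≤ 0 :=
        Real.sin_nonpos_of_nonpos_of_neg_pi_le (by nlinarith) (by nlinarith [Real.pi_pos])
      exact mul_nonneg_of_nonpos_of_nonpos a1 a2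
  have hκ0 : 0 ≤ 2 * (1 - α) * β := by
    have : 0 < 1 - α := by linarith
    positivity
  have hκα : 2 * (1 - α) * β ≤ α := by linarith
  generalize 2 * (1 - α) * β = κ at *
  generalize Real.cos (β * ψ) = C at *
  generalize Real.sin (β * ψ) = T at *
  generalize Real.cos ψ = c at *
  generalize Real.sin ψ = s at *
  have t1 : 0 ≤ C * ((4 - 6 * α) * (ρ * c)) := by
    have : 0 < 4 - 6 * α := by linarith
    positivity
  have t2 : 0 ≤ C * (κ * c ^ 2 * (2 * ρ ^ 2)) := by positivity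
  have t3 : 0 ≤ (ρ ^ 2 + 1) * (α * (s * (s * C - c * T)) + (α - κ) * (c ^ 2 * C + c * (s * T))) := by
    have : 0 ≤ α - κ := by linarith
    have : 0 ≤ c ^ 2 * C + c * (s * T) := by positivity
    positivity
  have t4 : C * (α * (ρ ^ 2 + 1) + (4 - 6 * α) * (ρ * c) + κ * c ^ 2 * (ρ ^ 2 - 1)) -
      κ * c * (ρ ^ 2 + 1) * (s * T) =
      C * ((4 - 6 * α) * (ρ * c)) + C * (κ * c ^ 2 * (2 * ρ ^ 2)) +
      (ρ ^ 2 + 1) * (α * (s * (s * C - c * T)) + (α - κ) * (c ^ 2 * C + c * (s * T))) +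
      α * C * (ρ ^ 2 + 1) * (1 - (s ^ 2 + c ^ 2)) := by ring
  rw [t4, hcs]
  linarith

lemma algebra {α β ρ c s C T : ℝ} (hρ0 : 0 < ρ) (hc : 0 < c) :
    C * ((α * ((ρ ^ 2 - 2 * ρ * c + 1) / (ρ ^ 2 + 2 * ρ * c + 1)) +
      (1 - α) * (1 - (ρ ^ 2 - 2 * ρ * c + 1) / (ρ ^ 2 + 2 * ρ * c + 1))) +
      ((1 - α) * (1 - (ρ ^ 2 - 2 * ρ * c + 1) / (ρ ^ 2 + 2 * ρ * c + 1))) * (β / 2) *
        ((ρ - 1 / ρ) * c)) -
      T * (((1 - α) * (1 - (ρ ^ 2 - 2 * ρ * c + 1) / (ρ ^ 2 + 2 * ρ * c + 1))) * (β / 2) *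
        ((ρ + 1 / ρ) * s)) =
    (C * (α * (ρ ^ 2 + 1) + (4 - 6 * α) * (ρ * c) + 2 * (1 - α) * β * c ^ 2 * (ρ ^ 2 - 1)) -
      2 * (1 - α) * β * c * (ρ ^ 2 + 1) * (s * T)) / (ρ ^ 2 + 2 * ρ * c + 1) := by
  have : ρ ^ 2 + 2 * ρ * c + 1 ≠ 0 := by positivity
  field_simp
  ring

theorem result : ∀ α β : ℝ, 0 < α → α < 2 / 3 → 0 < β → 0 ≤ α - 2 * (1 - α) * β →
    ∀ z : ℂ, ‖z‖ < 1 → 0 ≤ (P α β z).re := by
  intro α β hα hα' hβ hab z hz
  have h1 := one_sub_ne hz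
  have h2 := one_add_ne hz
  set W : ℂ := (1 + z) / (1 - z) with hW
  have hWre : 0 < W.re := cayley_re hz
  have hW0 : W ≠ 0 := by
    intro h; rw [h] at hWre; simp at hWre
  set ρ : ℝ := ‖W‖ with hρ
  have hρ0 : 0 < ρ := norm_pos_iff.mpr hW0
  set ψ : ℝ := W.arg with hψ
  have hψ2 : |ψ| < Real.pi / 2 := Complex.abs_arg_lt_pi_div_two_iff.mpr (Or.inl hWre)
  have hX : W.re = ρ * Real.cos ψ := by rw [Complex.norm_mul_cos_arg]
  have hY : W.im = ρ * Real.sin ψ := by rw [Complex.norm_mul_sin_arg]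
  have hβ1 : β < 1 := by
    by_contra hcon
    push Not at hcon
    nlinarith
  -- p = ρ^β (cos βψ + i sin βψ)
  have hp : p β z = ((ρ ^ β : ℝ) : ℂ) * (Real.cos (β * ψ) + Real.sin (β * ψ) * Complex.I) := by
    unfold p
    rw [← hW, Complex.cpow_def_of_ne_zero hW0]
    have : Complex.log W * (β : ℂ) = ((Real.log ρ * β : ℝ) : ℂ) + ((β * ψ : ℝ) : ℂ) * Complex.I := by
      rw [Complex.log]
      push_cast
      ring
    rw [this, Complex.exp_add, Complex.exp_mul_I, ← Complex.ofReal_exp, ← Complex.ofReal_cos,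
      ← Complex.ofReal_sin, Real.rpow_def_of_pos hρ0]
  have hz' : z = (W - 1) / (W + 1) := by
    have : W + 1 ≠ 0 := by
      intro h
      have := congrArg Complex.re h
      simp at this
      linarith
    rw [eq_div_iff this, hW]
    field_simp
    ring
  have hq : z * (2 * β / ((1 + z) * (1 - z))) = (β / 2 : ℂ) * (W - W⁻¹) := by
    rw [hW]
    field_simp
    ring
  have hN : W.re * W.re + W.im * W.im = ρ ^ 2 := by
    rw [hX, hY]
    nlinarith [Real.sin_sq_add_cos_sq ψ]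
  have hWinv_re : (W⁻¹).re = W.re / ρ ^ 2 := by
    rw [Complex.inv_re, Complex.normSq_apply, hN]
  have hWinv_im : (W⁻¹).im = -W.im / ρ ^ 2 := by
    rw [Complex.inv_im, Complex.normSq_apply, hN]
  set c : ℝ := Real.cos ψ with hc
  set s : ℝ := Real.sin ψ with hs
  have hcs : s ^ 2 + c ^ 2 = 1 := Real.sin_sq_add_cos_sq ψ
  have hc0 : 0 < c := by
    rw [hc]
    exact Real.cos_pos_of_mem_Ioo ⟨by linarith [neg_abs_le ψ], by linarith [le_abs_self ψ]⟩
  set D : ℝ := ρ ^ 2 + 2 * ρ * c + 1 with hD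
  have hD0 : 0 < D := by positivity
  have hnz : ‖z‖ ^ 2 = (ρ ^ 2 - 2 * ρ * c + 1) / D := by
    rw [hz', norm_div, div_pow, ← Complex.normSq_eq_norm_sq, ← Complex.normSq_eq_norm_sq,
      Complex.normSq_apply, Complex.normSq_apply]
    simp only [Complex.sub_re, Complex.sub_im, Complex.add_re, Complex.add_im, Complex.one_re,
      Complex.one_im, hX, hY]
    have e1 : (ρ * c - 1) * (ρ * c - 1) + (ρ * s - 0) * (ρ * s - 0) = ρ ^ 2 - 2 * ρ * c + 1 := by
      linear_combination ρ ^ 2 * hcs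
    have e2 : (ρ * c + 1) * (ρ * c + 1) + (ρ * s + 0) * (ρ * s + 0) = D := by
      rw [hD]; linear_combination ρ ^ 2 * hcs
    rw [e1, e2]
  have hP : P α β z = p β z * (((α * ‖z‖ ^ 2 + (1 - α) * (1 - ‖z‖ ^ 2) : ℝ) : ℂ) +
      (((1 - α) * (1 - ‖z‖ ^ 2) : ℝ) : ℂ) * (((β / 2 : ℝ) : ℂ) * (W - W⁻¹))) := by
    have hcc : ((β / 2 : ℝ) : ℂ) = (β : ℂ) / 2 := by push_cast; ring
    rw [hcc, ← hq]
    unfold P
    rw [deriv_p β hz]
    ring
  have hre : (P α β z).re = ρ ^ β * (Real.cos (β * ψ) *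
        ((α * ‖z‖ ^ 2 + (1 - α) * (1 - ‖z‖ ^ 2)) +
        ((1 - α) * (1 - ‖z‖ ^ 2)) * (β / 2) * ((ρ - 1 / ρ) * c)) -
      Real.sin (β * ψ) * (((1 - α) * (1 - ‖z‖ ^ 2)) * (β / 2) * ((ρ + 1 / ρ) * s))) := by
    rw [hP, hp]
    generalize α * ‖z‖ ^ 2 + (1 - α) * (1 - ‖z‖ ^ 2) = A
    generalize (1 - α) * (1 - ‖z‖ ^ 2) = B
    simp only [Complex.mul_re, Complex.mul_im, Complex.add_re, Complex.add_im, Complex.ofReal_re,
      Complex.ofReal_im, Complex.I_re, Complex.I_im, Complex.sub_re, Complex.sub_im, hWinv_re,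
      hWinv_im, hX, hY]
    field_simp
    ring
  rw [hre]
  apply mul_nonneg (by positivity)
  rw [hnz, algebra hρ0 hc0]
  exact div_nonneg (core hα hα' hβ hab hρ0 hψ2) hD0.le

end Pool.Agent.Results.MP_54ed65_an.NonnegRealPart
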